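import Pool.Graph.R_seed8.Helper6.LVarWein

set_option autoImplicit false
set_option linter.style.haveILetI false

/-! Complements to the library files `Helper6.LVar*`: the variety of the ordered Heisenberg group. -/

open Filter

namespace Pool.Agent.H74.LV

open Pool.Agent.Helper6.LVar

theorem meetT_vars {n : ℕ} {w0 : LTerm} (h0 : w0.VarsLT n) (l : List LTerm)
    (h : ∀ w ∈ l, w.VarsLT n) : (meetT w0 l).VarsLT n := by
  induction l with
  | nil => exact ⟨h0, trivial⟩
  | cons w l ih =>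
    exact ⟨⟨h w List.mem_cons_self, trivial⟩, ih fun w' hw' => h w' (List.mem_cons_of_mem _ hw')⟩

theorem comT_vars {n : ℕ} {s c : LTerm} (hs : s.VarsLT n) (hc : c.VarsLT n) :
    (comT s c).VarsLT n := ⟨⟨⟨hs, hc⟩, hs⟩, hc⟩

theorem a_vars {N : ℕ} (i : Fin (N + 3)) : (LTerm.var i).VarsLT (2 * (N + 3)) := by
  show (i : ℕ) < 2 * (N + 3)
  have := i.2; omega

theorem b_vars {N : ℕ} (i : Fin (N + 3)) : (LTerm.var ((N + 3) + i)).VarsLT (2 * (N + 3)) := by
  show (N + 3) + (i : ℕ) < 2 * (N + 3)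
  have := i.2; omega

theorem w1_vars {N : ℕ} (i j : Fin (N + 3)) : (w1 i j).VarsLT (2 * (N + 3)) :=
  comT_vars (a_vars i) (b_vars j)

theorem sepId_vars (N : ℕ) : (sepId N).1.VarsLT (2 * (N + 3)) ∧ (sepId N).2.VarsLT (2 * (N + 3)) := by
  refine ⟨meetT_vars (w1_vars _ _) _ ?_, trivial⟩
  intro w hw
  unfold words at hw
  rw [List.mem_flatMap] at hw
  obtain ⟨t, -, ht⟩ := hw
  simp only [List.mem_cons, List.not_mem_nil, or_false] at ht
  rcases ht with rfl | rfl | rfl | rfl
  · exact w1_vars _ _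
  · exact ⟨w1_vars _ _, comT_vars (a_vars _) (a_vars _)⟩
  · exact ⟨w1_vars _ _, comT_vars (b_vars _) (b_vars _)⟩
  · exact ⟨w1_vars _ _, ⟨w1_vars _ _, w1_vars _ _⟩, ⟨w1_vars _ _, w1_vars _ _⟩⟩

theorem GG_class2 {n : ℕ} (p q r : GG n) :
    (p * q * p⁻¹ * q⁻¹) * r = r * (p * q * p⁻¹ * q⁻¹) := by
  ext i
  · simp
  · simp
  · simp; ring

/-- The local statement: few variables do not suffice. -/
theorem local_fail (n : ℕ) : ∃ e ∈ IdHeis,
    e.1.VarsLT (2 * (n ^ 2 + n + 3)) ∧ e.2.VarsLT (2 * (n ^ 2 + n + 3)) ∧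
    ∃ (G : Type) (_ : Group G) (_ : LinearOrder G), MulLeftMono G ∧ MulRightMono G ∧
      (∀ a b c : G, (a * b * a⁻¹ * b⁻¹) * c = c * (a * b * a⁻¹ * b⁻¹)) ∧
      (∀ e' ∈ IdHeis, e'.1.VarsLT n → e'.2.VarsLT n → Satisfies {e'} G) ∧
      ¬ Satisfies {e} G := by
  set N := n + n * n with hN
  have hcount : 2 * (n ^ 2 + n + 3) = 2 * (N + 3) := by rw [hN]; ring
  refine ⟨sepId N, sepId_heis N, ?_, ?_, GG (N + 3), inferInstance, (gcone N).order, ?_, ?_,
    GG_class2, ?_, ?_⟩
  · rw [hcount]; exact (sepId_vars N).1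
  · rw [hcount]; exact (sepId_vars N).2
  · exact (gcone N).mulLeftMono
  · exact (gcone N).mulRightMono
  · intro e' he' h1 h2 e he v
    rw [Set.mem_singleton_iff] at he
    subst he
    exact grid_local (N := N) n (by omega) e h1 h2 he' v
  · intro h
    exact sepId_grid N fun v => h _ rfl v

/-- The commutative law. -/
def comId : LTerm × LTerm := (.mul (.var 0) (.var 1), .mul (.var 1) (.var 0))

/-- The law `x = 1`. -/
def oneId : LTerm × LTerm := (.var 0, .one)

theorem sat_com {G : Type} [Group G] [Lattice G] :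
    Satisfies {comId} G ↔ ∀ x y : G, x * y = y * x := by
  constructor
  · intro h x y
    exact h _ rfl (fun i => match i with
      | 0 => x
      | _ => y)
  · intro h e he v
    rw [Set.mem_singleton_iff] at he
    subst he
    exact h (v 0) (v 1)

theorem sat_one {G : Type} [Group G] [Lattice G] :
    Satisfies {oneId} G ↔ ∀ x : G, x = 1 := by
  constructor
  · intro h x
    exact h _ rfl (fun _ => x)
  · intro h e he v
    rw [Set.mem_singleton_iff] at he
    subst he
    exact h (v 0)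

/-- A nontrivial member of a variety of `ℓ`-groups makes the integers a member. -/
theorem int_sat {G : Type} [Group G] [Lattice G] [MulLeftMono G] [MulRightMono G]
    {E : Set (LTerm × LTerm)} (hG : Satisfies E G) {x : G} (hx : x ≠ 1) :
    Satisfies E (Multiplicative ℤ) := by
  have hx' : 1 < x ⊔ x⁻¹ := by
    refine lt_of_le_of_ne (one_le_abs' x) ?_
    intro h1
    apply hx
    have h2 : x ≤ 1 := h1 ▸ le_sup_left
    have h3 : x⁻¹ ≤ 1 := h1 ▸ le_sup_right
    exact le_antisymm h2 (Left.inv_le_one_iff.mp h3)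
  refine transfer_top (F := (atTop : Filter ℕ)) (fun a b => le_total a b)
    (fun _ => zpowersHom G (x ⊔ x⁻¹)) ?_ E hG
  intro k hk
  refine Eventually.of_forall fun _ => ?_
  rw [zpowersHom_apply]
  have hk' : (0 : ℤ) < Multiplicative.toAdd k := hk
  have h1 := zmono hx'.le (show (1 : ℤ) ≤ Multiplicative.toAdd k by omega)
  rw [zpow_one] at h1
  exact hx'.trans_le h1

/-- Abelian `ℓ`-groups belong to the variety of the Heisenberg group. -/
theorem abelian_sub : SubvarietyOf {comId} IdHeis := by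
  intro G _ _ _ _ hG
  refine weinberg (sat_com.mp hG) IdHeis (int_sat heis_sat (x := (⟨1, 0, 0⟩ : Heis)) ?_)
  intro h
  have := congrArg Heis.x h
  simp at this

theorem trivial_sub : SubvarietyOf {oneId} {comId} := by
  intro G _ _ _ _ hG
  have h := sat_one.mp hG
  exact sat_com.mpr fun x y => by rw [h x, h y]

/-- Proper subvarieties are the abelian and the trivial one. -/
theorem proper_sub (E' : Set (LTerm × LTerm)) (hsub : SubvarietyOf E' IdHeis)
    (hne : ¬ SubvarietyOf IdHeis E') :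
    (SubvarietyOf E' {comId} ∧ SubvarietyOf {comId} E') ∨
      (SubvarietyOf E' {oneId} ∧ SubvarietyOf {oneId} E') := by
  have hab : ∀ (G : Type) [Group G] [Lattice G] [MulLeftMono G] [MulRightMono G],
      Satisfies E' G → ∀ x y : G, x * y = y * x := by
    intro G _ _ _ _ hG x y
    by_contra hxy
    apply hne
    intro G' _ _ _ _ hG' e he
    have h1 : Satisfies E' Heis := heis_of_nonabelian (hsub G hG) ⟨x, y, hxy⟩ E' hG
    exact hG' e (h1 e he)
  by_cases hnt : ∃ (G : Type) (_ : Group G) (_ : Lattice G) (_ : MulLeftMono G)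
      (_ : MulRightMono G), Satisfies E' G ∧ ∃ x : G, x ≠ 1
  · obtain ⟨G, _, _, _, _, hG, x, hx⟩ := hnt
    have hZ := int_sat hG hx
    left
    refine ⟨?_, ?_⟩
    · intro G' _ _ _ _ h
      exact sat_com.mpr (hab G' h)
    · intro G' _ _ _ _ h
      exact weinberg (sat_com.mp h) E' hZ
  · right
    refine ⟨?_, ?_⟩
    · intro G' _ _ _ _ h
      refine sat_one.mpr fun x => ?_
      by_contra hcon
      exact hnt ⟨G', inferInstance, inferInstance, inferInstance, inferInstance, h, x, hcon⟩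
    · intro G' _ _ _ _ h e he v
      have htriv := sat_one.mp h
      rw [htriv (e.1.eval v), htriv (e.2.eval v)]

theorem heis_nonabelian : ¬ Satisfies {comId} Heis := by
  intro h
  have h1 := sat_com.mp h ⟨1, 0, 0⟩ ⟨0, 1, 0⟩
  have h2 := congrArg Heis.z h1
  simp at h2

theorem int_nontrivial : ¬ Satisfies {oneId} (Multiplicative ℤ) := by
  intro h
  have h1 := sat_one.mp h (Multiplicative.ofAdd 1)
  have h2 := congrArg Multiplicative.toAdd h1
  simp at h2

theorem com_vars : comId.1.VarsLT 2 ∧ comId.2.VarsLT 2 :=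
  ⟨⟨show 0 < 2 by norm_num, show 1 < 2 by norm_num⟩, ⟨show 1 < 2 by norm_num, show 0 < 2 by norm_num⟩⟩

theorem one_vars : oneId.1.VarsLT 1 ∧ oneId.2.VarsLT 1 :=
  ⟨show 0 < 1 by norm_num, trivial⟩

end Pool.Agent.H74.LV
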